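import Pool.Agent.W716.FV.Final

/-!
# Null sets under `Psi`
-/

set_option autoImplicit false

open MeasureTheory Metric Set Filter Topology InnerProductGeometry

namespace Pool.Agent.W716.FV

open Pool.Agent.H241R3.FV (Sph ext RChart Fill Triang gnorm)

theorem null_gen (V : Type) [NormedAddCommGroup V] [NormedSpace ℝ V] [FiniteDimensional ℝ V]
    [MeasurableSpace V] [BorelSpace V] (μ : Measure V) [μ.IsAddHaarMeasure] (Ψ : V → V)
    (s : Set V) (hΨ : ∀ p ∈ s, ∃ r : ℝ, 0 < r ∧ ∃ K : ℝ, ∀ y ∈ s ∩ ball p r, ∀ z ∈ s ∩ ball p r,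
      ‖Ψ y - Ψ z‖ ≤ K * ‖y - z‖) (hs : μ s = 0) : μ (Ψ '' s) = 0 := by
  set N : ℝ := (Module.finrank ℝ V : ℝ) with hN
  have hH : (μH[N] : Measure V).IsAddHaarMeasure :=
    MeasureTheory.isAddHaarMeasure_hausdorffMeasure (E := V)
  have hac1 : (μH[N] : Measure V) ≪ μ := Measure.absolutelyContinuous_isAddHaarMeasure _ _
  have hac2 : μ ≪ (μH[N] : Measure V) := Measure.absolutelyContinuous_isAddHaarMeasure _ _
  have hs' : (μH[N] : Measure V) s = 0 := hac1 hs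
  apply hac2
  have key : (OuterMeasure.comap Ψ (μH[N] : Measure V).toOuterMeasure) s = 0 := by
    apply MeasureTheory.measure_null_of_locally_null
    intro p hp
    obtain ⟨r, hr, K, hK⟩ := hΨ p hp
    refine ⟨s ∩ ball p r, inter_mem_nhdsWithin _ (ball_mem_nhds _ hr), ?_⟩
    rw [OuterMeasure.comap_apply]
    have hL : LipschitzOnWith (Real.toNNReal K) Ψ (s ∩ ball p r) := by
      refine LipschitzOnWith.of_dist_le_mul fun y hy z hz => ?_
      rw [dist_eq_norm, dist_eq_norm]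
      refine (hK y hy z hz).trans ?_
      exact mul_le_mul_of_nonneg_right (Real.le_coe_toNNReal K) (norm_nonneg _)
    have h1 := hL.hausdorffMeasure_image_le (d := N) (Nat.cast_nonneg _)
    have h2 : (μH[N] : Measure V) (s ∩ ball p r) = 0 :=
      measure_mono_null inter_subset_left hs'
    rw [h2, mul_zero] at h1
    exact nonpos_iff_eq_zero.mp h1
  rwa [OuterMeasure.comap_apply] at key

theorem nU : NullPsi := by
  intro n hn M _ bd hbd C η t ht h0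
  obtain ⟨-, -, -, -, -, pf6⟩ := pF n hn M bd hbd
  have hhaar : (volume : Measure (ℝ × E n)).IsAddHaarMeasure := by
    have h : ((volume : Measure ℝ).prod (volume : Measure (E n))).IsAddHaarMeasure := inferInstance
    exact h
  refine null_gen (ℝ × E n) volume _ t ?_ h0
  intro p hp
  obtain ⟨hp1, hp2⟩ := ht hp
  have hp1' : (0 : ℝ) < p.1 := hp1
  obtain ⟨r, hr, hrU, h⟩ := Pool.Agent.H241R3.FV.TLoc.taskLoc n M C p.2 hp2 1 one_pos
  obtain ⟨L, hL⟩ := pf6 η (p.1 + r)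
  set K0 : ℝ := √(∑ i, ∑ j, |C.G p.2 i j|) with hK0
  have hK0' : 0 ≤ K0 := Real.sqrt_nonneg _
  refine ⟨r, hr, |L| * (1 + (K0 + 1)), ?_⟩
  rintro y ⟨hyt, hy⟩ z ⟨hzt, hz⟩
  have hy1 : (0 : ℝ) < y.1 := (ht hyt).1
  have hz1 : (0 : ℝ) < z.1 := (ht hzt).1
  have hyb : |y.1 - p.1| < r ∧ y.2 ∈ ball p.2 r := by
    rw [mem_ball, Prod.dist_eq, max_lt_iff] at hy
    exact ⟨by rw [← Real.dist_eq]; exact hy.1, hy.2⟩
  have hzb : |z.1 - p.1| < r ∧ z.2 ∈ ball p.2 r := by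
    rw [mem_ball, Prod.dist_eq, max_lt_iff] at hz
    exact ⟨by rw [← Real.dist_eq]; exact hz.1, hz.2⟩
  have hy2 : y.1 ∈ Set.Icc 0 (p.1 + r) := ⟨hy1.le, by have := (abs_lt.1 hyb.1).2; linarith⟩
  have hz2 : z.1 ∈ Set.Icc 0 (p.1 + r) := ⟨hz1.le, by have := (abs_lt.1 hzb.1).2; linarith⟩
  have h1 := hL y.1 hy2 z.1 hz2 (C.map y.2) (C.map z.2)
  have h2 := h y.2 hyb.2 z.2 hzb.2
  have h3 := Pool.Agent.H241R3.FV.gnorm_le (C.G p.2) (y.2 - z.2)
  have h4 : |y.1 - z.1| ≤ ‖y - z‖ := by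
    rw [← Real.norm_eq_abs]
    exact norm_fst_le (y - z)
  have h5 : ‖y.2 - z.2‖ ≤ ‖y - z‖ := norm_snd_le (y - z)
  have h6 : dist (C.map y.2) (C.map z.2) ≤ (K0 + 1) * ‖y - z‖ := by
    calc dist (C.map y.2) (C.map z.2) ≤ (K0 + 1) * ‖y.2 - z.2‖ := by linarith
      _ ≤ _ := by gcongr
  calc ‖Psi bd η y.1 (C.map y.2) - Psi bd η z.1 (C.map z.2)‖
      ≤ L * (|y.1 - z.1| + dist (C.map y.2) (C.map z.2)) := h1
    _ ≤ |L| * (|y.1 - z.1| + dist (C.map y.2) (C.map z.2)) := by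
        gcongr
        exact le_abs_self L
    _ ≤ |L| * (‖y - z‖ + (K0 + 1) * ‖y - z‖) := by gcongr
    _ = _ := by ring

end Pool.Agent.W716.FV
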