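import Pool.Agent.W716.FV.StmB
import Pool.Agent.H241R3.FV.TLoc
import Pool.Agent.H241R3.FV.Base

/-!
# Assembly of the main theorem, part 1: one chart
-/

set_option autoImplicit false

open MeasureTheory InnerProductGeometry Set Filter Topology

namespace Pool.Agent.W716.FV.Asm

open Pool.Agent.H241R3.FV (Sph ext RChart Fill Triang gnorm)

theorem map_contOn {n : ℕ} {M : Type} [MetricSpace M] (C : RChart n M) :
    ContinuousOn C.map C.U := by
  intro p hp
  obtain ⟨r, hr, hrU, h⟩ := Pool.Agent.H241R3.FV.TLoc.taskLoc n M C p hp 1 one_pos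
  apply ContinuousAt.continuousWithinAt
  rw [ContinuousAt, tendsto_iff_dist_tendsto_zero]
  have hlim : Tendsto (fun y : E n => √(∑ i, ∑ j, |C.G p i j|) * ‖y - p‖ + 1 * ‖y - p‖) (𝓝 p)
      (𝓝 0) := by
    have hc : Continuous (fun y : E n => √(∑ i, ∑ j, |C.G p i j|) * ‖y - p‖ + 1 * ‖y - p‖) := by
      fun_prop
    have := hc.tendsto p
    simpa using this
  refine squeeze_zero' (Eventually.of_forall fun _ => dist_nonneg) ?_ hlim
  filter_upwards [Metric.ball_mem_nhds p hr] with y hy
  exact (h y hy p (Metric.mem_ball_self hr)).trans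
    (add_le_add (Pool.Agent.H241R3.FV.gnorm_le _ _) le_rfl)

theorem meas_wt (n : ℕ) (ε : ℝ) : Measurable (fun p : E n × (ℝ × E n) => wt ε p.1 p.2) := by
  classical
  unfold wt
  refine Measurable.ite ?_ ?_ measurable_const
  · have h1 : IsClosed {p : E n × (ℝ × E n) | ‖p.2.2‖ ≤ ε} :=
      isClosed_le (f := fun p : E n × (ℝ × E n) => ‖p.2.2‖) (g := fun _ => ε)
        (by fun_prop) continuous_const
    have h2 : IsClosed {p : E n × (ℝ × E n) | p.2.1 ≤ 27 / 200} :=
      isClosed_le (f := fun p : E n × (ℝ × E n) => p.2.1) (g := fun _ => (27 / 200 : ℝ))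
        (by fun_prop) continuous_const
    exact (h1.inter h2).measurableSet
  · have h3 : Continuous (fun p : E n × (ℝ × E n) =>
        Real.exp (-‖p.1‖ ^ 2 / 2 - inner ℝ p.2.2 p.1 - 20 / 3 * p.2.1)) := by fun_prop
    exact h3.measurable

theorem wt_nonneg {n : ℕ} (ε : ℝ) (η : E n) (z : ℝ × E n) : 0 ≤ wt ε η z := by
  unfold wt
  split_ifs
  · exact (Real.exp_pos _).le
  · exact le_rfl

attribute [local irreducible] SS TT UU

/-- the map in the cone chart -/
noncomputable def fm {n : ℕ} {M : Type} [MetricSpace M] (bd : Sph n → M) (C : RChart n M)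
    (η : E n) (z : ℝ × E n) : ℝ × E n := Psi bd η z.1 (C.map z.2)

theorem fm_cont {n : ℕ} {M : Type} [MetricSpace M] (bd : Sph n → M) (C : RChart n M)
    (hc : Continuous (fun z : E n × ℝ × M => Psi bd z.1 z.2.1 z.2.2)) :
    ContinuousOn (fun p : E n × (ℝ × E n) => fm bd C p.1 p.2)
      ((univ : Set (E n)) ×ˢ ((univ : Set ℝ) ×ˢ C.U)) := by
  have h1 : ContinuousOn (fun p : E n × (ℝ × E n) => (p.1, p.2.1, C.map p.2.2))
      ((univ : Set (E n)) ×ˢ ((univ : Set ℝ) ×ˢ C.U)) := by
    refine ContinuousOn.prodMk continuousOn_fst (ContinuousOn.prodMk ?_ ?_)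
    · exact (continuous_fst.comp continuous_snd).continuousOn
    · exact (map_contOn C).comp (continuous_snd.comp continuous_snd).continuousOn
        (fun p hp => hp.2.2)
  have h2 := hc.comp_continuousOn h1
  simpa only [Function.comp_def, fm] using h2

/-- the domain of the cone chart -/
def sd {n : ℕ} {M : Type} [MetricSpace M] (C : RChart n M) : Set (ℝ × E n) :=
  Ioi (0 : ℝ) ×ˢ C.D

theorem sd_meas {n : ℕ} {M : Type} [MetricSpace M] (C : RChart n M) : MeasurableSet (sd C) :=
  measurableSet_Ioi.prod C.meas_D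

theorem sd_sub {n : ℕ} {M : Type} [MetricSpace M] (C : RChart n M) :
    sd C ⊆ (univ : Set ℝ) ×ˢ C.U := fun z hz => ⟨mem_univ _, C.D_sub hz.2⟩

theorem fm_aem2 {n : ℕ} {M : Type} [MetricSpace M] (bd : Sph n → M) (C : RChart n M)
    (hc : Continuous (fun z : E n × ℝ × M => Psi bd z.1 z.2.1 z.2.2)) :
    AEMeasurable (fun p : E n × (ℝ × E n) => fm bd C p.1 p.2)
      ((volume : Measure (E n)).prod ((volume : Measure (ℝ × E n)).restrict (sd C))) := by
  have e : (volume : Measure (E n)).prod ((volume : Measure (ℝ × E n)).restrict (sd C)) =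
      ((volume : Measure (E n)).prod (volume : Measure (ℝ × E n))).restrict
        ((univ : Set (E n)) ×ˢ sd C) := by
    rw [← Measure.prod_restrict, Measure.restrict_univ]
  rw [e]
  refine ContinuousOn.aemeasurable ?_ (MeasurableSet.univ.prod (sd_meas C))
  exact (fm_cont bd C hc).mono (prod_mono_right (sd_sub C))

theorem fm_aem {n : ℕ} {M : Type} [MetricSpace M] (bd : Sph n → M) (C : RChart n M)
    (hc : Continuous (fun z : E n × ℝ × M => Psi bd z.1 z.2.1 z.2.2)) (η : E n) :
    AEMeasurable (fm bd C η) ((volume : Measure (ℝ × E n)).restrict (sd C)) := by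
  refine ContinuousOn.aemeasurable ?_ (sd_meas C)
  have h1 : Continuous (fun z : ℝ × E n => (η, z)) := by fun_prop
  have h2 := (fm_cont bd C hc).comp h1.continuousOn (s := sd C)
    (fun z hz => ⟨mem_univ _, sd_sub C hz⟩)
  simpa only [Function.comp_def] using h2

theorem fm_jac (hJA : Jac) {n : ℕ} (hn : 0 < n) {M : Type} [MetricSpace M] (bd : Sph n → M)
    (hbd : ∀ x y : Sph n, angle (x : E n) (y : E n) ≤ dist (bd x) (bd y)) (C : RChart n M) :
    ∀ᵐ z ∂(volume : Measure (ℝ × E n)), z ∈ sd C → ∀ η : E n,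
      ∃ L : (ℝ × E n) →L[ℝ] (ℝ × E n), HasFDerivAt (fm bd C η) L z ∧
        |L.det| ≤ (√3)⁻¹ * Real.exp ((fm bd C η z).1 - 1 / 2) * z.1 ^ n * √(C.G z.2).det := by
  have h1 := hJA n hn M bd hbd C
  have h2 : ∀ᵐ z ∂((volume : Measure ℝ).prod (volume : Measure (E n))),
      z.2 ∈ C.U → ∀ (η : E n) (R : ℝ), 0 < R →
        ∃ L : (ℝ × E n) →L[ℝ] (ℝ × E n),
          HasFDerivAt (fun z : ℝ × E n => Psi bd η z.1 (C.map z.2)) L (R, z.2) ∧
          |L.det| ≤ (√3)⁻¹ * Real.exp ((Psi bd η R (C.map z.2)).1 - 1 / 2) * R ^ n *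
            √(C.G z.2).det :=
    (Measure.quasiMeasurePreserving_snd (μ := (volume : Measure ℝ))
      (ν := (volume : Measure (E n)))).ae h1
  have h3 : ∀ᵐ z ∂(volume : Measure (ℝ × E n)),
      z.2 ∈ C.U → ∀ (η : E n) (R : ℝ), 0 < R →
        ∃ L : (ℝ × E n) →L[ℝ] (ℝ × E n),
          HasFDerivAt (fun z : ℝ × E n => Psi bd η z.1 (C.map z.2)) L (R, z.2) ∧
          |L.det| ≤ (√3)⁻¹ * Real.exp ((Psi bd η R (C.map z.2)).1 - 1 / 2) * R ^ n *
            √(C.G z.2).det := h2
  filter_upwards [h3] with z hz hzs η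
  exact hz (C.D_sub hzs.2) η z.1 hzs.1

/-- factor of the integrand that does not depend on `η` -/
noncomputable def Kf {n : ℕ} {M : Type} [MetricSpace M] (C : RChart n M) (z : ℝ × E n) : ENNReal :=
  ENNReal.ofReal ((√3)⁻¹ * z.1 ^ n * √(C.G z.2).det)

/-- factor of the integrand that depends on `η` -/
noncomputable def gf {n : ℕ} {M : Type} [MetricSpace M] (bd : Sph n → M) (C : RChart n M) (ε : ℝ)
    (η : E n) (z : ℝ × E n) : ENNReal :=
  ENNReal.ofReal (wt ε η (fm bd C η z) * Real.exp ((fm bd C η z).1 - 1 / 2))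

theorem cont_det {n : ℕ} {M : Type} [MetricSpace M] (C : RChart n M) :
    ContinuousOn (fun c : E n => √(C.G c).det) C.D := by
  refine Real.continuous_sqrt.comp_continuousOn ?_
  exact (Continuous.matrix_det continuous_id).comp_continuousOn (C.cont_G.mono C.D_sub)

theorem Kf_aem {n : ℕ} {M : Type} [MetricSpace M] (C : RChart n M) :
    AEMeasurable (Kf C) ((volume : Measure (ℝ × E n)).restrict (sd C)) := by
  refine AEMeasurable.ennreal_ofReal ?_
  refine ContinuousOn.aemeasurable ?_ (sd_meas C)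
  refine ContinuousOn.mul ?_ ?_
  · have h : Continuous (fun z : ℝ × E n => (√3)⁻¹ * z.1 ^ n) := by fun_prop
    exact h.continuousOn
  · exact (cont_det C).comp continuous_snd.continuousOn (fun z hz => hz.2)

theorem gf_aem {n : ℕ} {M : Type} [MetricSpace M] (bd : Sph n → M) (C : RChart n M)
    (hc : Continuous (fun z : E n × ℝ × M => Psi bd z.1 z.2.1 z.2.2)) (ε : ℝ) :
    AEMeasurable (fun p : E n × (ℝ × E n) => gf bd C ε p.1 p.2)
      ((volume : Measure (E n)).prod ((volume : Measure (ℝ × E n)).restrict (sd C))) := by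
  have h0 := fm_aem2 bd C hc
  have h1 : AEMeasurable (fun p : E n × (ℝ × E n) => (p.1, fm bd C p.1 p.2))
      ((volume : Measure (E n)).prod ((volume : Measure (ℝ × E n)).restrict (sd C))) :=
    AEMeasurable.prodMk measurable_fst.aemeasurable h0
  have h2 : AEMeasurable (fun p : E n × (ℝ × E n) => wt ε p.1 (fm bd C p.1 p.2))
      ((volume : Measure (E n)).prod ((volume : Measure (ℝ × E n)).restrict (sd C))) := by
    have := (meas_wt n ε).comp_aemeasurable h1
    exact this
  have h3 : AEMeasurable (fun p : E n × (ℝ × E n) => (fm bd C p.1 p.2).1)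
      ((volume : Measure (E n)).prod ((volume : Measure (ℝ × E n)).restrict (sd C))) := by
    have := measurable_fst.comp_aemeasurable h0
    exact this
  have h4 : AEMeasurable (fun p : E n × (ℝ × E n) => Real.exp ((fm bd C p.1 p.2).1 - 1 / 2))
      ((volume : Measure (E n)).prod ((volume : Measure (ℝ × E n)).restrict (sd C))) := by
    have := Real.measurable_exp.comp_aemeasurable (h3.sub_const (1 / 2))
    exact this
  have h5 := h2.mul h4
  exact h5.ennreal_ofReal

theorem Kg_aem {n : ℕ} {M : Type} [MetricSpace M] (bd : Sph n → M) (C : RChart n M)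
    (hc : Continuous (fun z : E n × ℝ × M => Psi bd z.1 z.2.1 z.2.2)) (ε : ℝ) :
    AEMeasurable (fun p : E n × (ℝ × E n) => Kf C p.2 * gf bd C ε p.1 p.2)
      ((volume : Measure (E n)).prod ((volume : Measure (ℝ × E n)).restrict (sd C))) := by
  have h1 : AEMeasurable (fun p : E n × (ℝ × E n) => Kf C p.2)
      ((volume : Measure (E n)).prod ((volume : Measure (ℝ × E n)).restrict (sd C))) :=
    (Kf_aem C).comp_snd
  exact h1.mul (gf_aem bd C hc ε)

/-- the radial integral -/
noncomputable def II (n : ℕ) : ENNReal :=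
  ∫⁻ R in Ioi (0 : ℝ), ENNReal.ofReal (R ^ n * Real.exp (-(R ^ 2) / 2))

/-- a constant -/
noncomputable def c1 : ENNReal := ENNReal.ofReal ((√3)⁻¹ * Real.exp (-(1 / 2)))

/-- the estimate in one chart -/
theorem chart_bound (hPP : PerP) {n : ℕ} {M : Type} [MetricSpace M] (bd : Sph n → M)
    (hU : ∀ q, Good 1 (UU bd q)) (C : RChart n M)
    (hc : Continuous (fun z : E n × ℝ × M => Psi bd z.1 z.2.1 z.2.2)) (ε : ℝ) (hε : 0 < ε) :
    ∫⁻ η : E n, ∫⁻ z in sd C, Kf C z * gf bd C ε η z ≤
      c1 * II n * volume (Metric.closedBall (0 : E n) ε) *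
        ∫⁻ c in C.D, ENNReal.ofReal √(C.G c).det := by
  rw [lintegral_lintegral_swap (Kg_aem bd C hc ε)]
  set V : ENNReal := volume (Metric.closedBall (0 : E n) ε) with hV
  have h1 : ∀ᵐ z ∂((volume : Measure (ℝ × E n)).restrict (sd C)),
      ∫⁻ η : E n, Kf C z * gf bd C ε η z ≤
        (c1 * V) * (ENNReal.ofReal (z.1 ^ n * Real.exp (-(z.1 ^ 2) / 2)) *
          ENNReal.ofReal √(C.G z.2).det) := by
    filter_upwards [ae_restrict_mem (sd_meas C)] with z hzs
    have hz1 : (0 : ℝ) < z.1 := hzs.1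
    have hgood : Good z.1 (fun G : E n => z.1 * UU bd (C.map z.2) G) := by
      have h := hU (C.map z.2)
      refine ⟨fun x y => ?_, fun t x ht => ?_⟩
      · rw [← mul_sub, abs_mul, abs_of_pos hz1]
        have := h.lip x y
        rw [one_mul] at this
        exact mul_le_mul_of_nonneg_left this hz1.le
      · rw [h.hom t x ht]; ring
    have hp := hPP n z.1 (fun G : E n => z.1 * UU bd (C.map z.2) G) hz1.le hgood ε hε
    have hp' : ∫⁻ η : E n, gf bd C ε η z ≤
        ENNReal.ofReal (Real.exp (-(z.1 ^ 2) / 2 - 1 / 2)) * V := hp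
    rw [lintegral_const_mul' _ _ (by unfold Kf; exact ENNReal.ofReal_ne_top)]
    calc Kf C z * ∫⁻ η : E n, gf bd C ε η z ≤
        Kf C z * (ENNReal.ofReal (Real.exp (-(z.1 ^ 2) / 2 - 1 / 2)) * V) := by gcongr
      _ = _ := by
          unfold Kf c1
          rw [show (√3)⁻¹ * z.1 ^ n * √(C.G z.2).det = ((√3)⁻¹ * z.1 ^ n) * √(C.G z.2).det by ring,
            ENNReal.ofReal_mul (by positivity : (0:ℝ) ≤ (√3)⁻¹ * z.1 ^ n),
            ENNReal.ofReal_mul (by positivity : (0:ℝ) ≤ (√3)⁻¹),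
            ENNReal.ofReal_mul (by positivity : (0:ℝ) ≤ (√3)⁻¹),
            ENNReal.ofReal_mul (by positivity : (0:ℝ) ≤ z.1 ^ n),
            show -(z.1 ^ 2) / 2 - 1 / 2 = -(z.1 ^ 2) / 2 + -(1 / 2) by ring, Real.exp_add,
            ENNReal.ofReal_mul (Real.exp_pos _).le]
          ring
  refine (lintegral_mono_ae h1).trans ?_
  have hfin : c1 * V ≠ ⊤ :=
    ENNReal.mul_ne_top (by unfold c1; exact ENNReal.ofReal_ne_top) (measure_closedBall_lt_top.ne)
  rw [lintegral_const_mul' _ _ hfin]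
  have e : (volume : Measure (ℝ × E n)).restrict (sd C) =
      ((volume : Measure ℝ).restrict (Ioi 0)).prod ((volume : Measure (E n)).restrict C.D) := by
    rw [Measure.prod_restrict]
    rfl
  rw [e, lintegral_prod_mul
    (f := fun R : ℝ => ENNReal.ofReal (R ^ n * Real.exp (-(R ^ 2) / 2)))
    (g := fun c : E n => ENNReal.ofReal √(C.G c).det)]
  · refine le_of_eq ?_
    show c1 * V * (II n * _) = c1 * II n * V * _
    ring
  · have h : Continuous (fun R : ℝ => ENNReal.ofReal (R ^ n * Real.exp (-(R ^ 2) / 2))) := by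
      refine ENNReal.continuous_ofReal.comp ?_
      fun_prop
    exact h.aemeasurable
  · exact AEMeasurable.ennreal_ofReal ((cont_det C).aemeasurable C.meas_D)

end Pool.Agent.W716.FV.Asm
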