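import Mathlib

/-!
# An absolute constant in the filling volume inequality: definitions (analytic part)

`n = d + 1` is the dimension of the filling.  `P n` is the law of `(g, κ)`, `g` standard Gaussian in
`ℝ^n`, `κ` real with density `8/(3π) (1+κ²)^(-3)`, independent of `g`.
-/

set_option autoImplicit false

open MeasureTheory

namespace Pool.Agent.W716.FV

/-- Euclidean space. -/
abbrev E (n : ℕ) : Type := EuclideanSpace ℝ (Fin n)

/-- standard Gaussian density -/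
noncomputable def gd (n : ℕ) (x : E n) : ℝ := (√(2 * Real.pi))⁻¹ ^ n * Real.exp (-‖x‖ ^ 2 / 2)

/-- density of `κ` -/
noncomputable def kd (κ : ℝ) : ℝ := 8 / (3 * Real.pi) / (1 + κ ^ 2) ^ 3

/-- standard Gaussian measure -/
noncomputable def gam (n : ℕ) : Measure (E n) :=
  volume.withDensity (fun x => ENNReal.ofReal (gd n x))

/-- law of `κ` -/
noncomputable def nu : Measure ℝ := volume.withDensity (fun κ => ENNReal.ofReal (kd κ))

/-- law of `(g, κ)` -/
noncomputable def P (n : ℕ) : Measure (E n × ℝ) := (gam n).prod nu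

/-- the point `g + κ η` -/
noncomputable def xi {n : ℕ} (η : E n) (w : E n × ℝ) : E n := w.1 + w.2 • η

/-- positively homogeneous functions with Lipschitz constant `R` -/
structure Good {n : ℕ} (R : ℝ) (u : E n → ℝ) : Prop where
  lip : ∀ x y, |u x - u y| ≤ R * ‖x - y‖
  hom : ∀ (t : ℝ) (x : E n), 0 ≤ t → u (t • x) = t * u x

/-- `T_η = E[u(g+κη) g] - η` -/
noncomputable def TT {n : ℕ} (u : E n → ℝ) (η : E n) : E n :=
  (∫ w, u (xi η w) • w.1 ∂(P n)) - η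

/-- `S_η = (R² + |η|²)/6 - E[κ u(g+κη)]` -/
noncomputable def SS {n : ℕ} (R : ℝ) (u : E n → ℝ) (η : E n) : ℝ :=
  (R ^ 2 + ‖η‖ ^ 2) / 6 - ∫ w, w.2 * u (xi η w) ∂(P n)

/-- the gradient (zero where `u` is not differentiable) -/
noncomputable def gr {n : ℕ} (u : E n → ℝ) (x : E n) : E n :=
  (InnerProductSpace.toDual ℝ (E n)).symm (fderiv ℝ u x)

/-- `A_η v = E[κ ⟨∇u(g+κη), v⟩ g]` -/
noncomputable def AA {n : ℕ} (u : E n → ℝ) (η : E n) : E n →L[ℝ] E n :=
  ∫ w, w.2 • (fderiv ℝ u (xi η w)).smulRight w.1 ∂(P n)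

/-- `E[X]`, where `X = R² - 2 ⟨∇u(g+κη), η⟩ + |η|²` -/
noncomputable def EX {n : ℕ} (R : ℝ) (u : E n → ℝ) (η : E n) : ℝ :=
  R ^ 2 - ‖η‖ ^ 2 - 2 * inner ℝ (TT u η) η

/-- the variable `X` -/
noncomputable def XX {n : ℕ} (R : ℝ) (u : E n → ℝ) (η : E n) (w : E n × ℝ) : ℝ :=
  R ^ 2 - 2 * inner ℝ (gr u (xi η w)) η + ‖η‖ ^ 2

/-- the weight `1[|τ| ≤ ε, s ≤ 27/200] exp(-|η|²/2 - ⟨τ,η⟩ - 20 s/3)` at `z = (s, τ)` -/
noncomputable def wt {n : ℕ} (ε : ℝ) (η : E n) (z : ℝ × E n) : ℝ :=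
  open Classical in
  if ‖z.2‖ ≤ ε ∧ z.1 ≤ 27 / 200 then
    Real.exp (-‖η‖ ^ 2 / 2 - inner ℝ z.2 η - 20 / 3 * z.1) else 0

/-- the square of the Euclidean norm on `ℝ × ℝ^n` -/
noncomputable def nsq {n : ℕ} (z : ℝ × E n) : ℝ := z.1 ^ 2 + ‖z.2‖ ^ 2

/-! ### chains modulo 2 of lists -/

/-- boundary: sum of `ω` over the lists obtained by deleting one entry -/
def dd {α : Type} : (List α → ZMod 2) → List α → ZMod 2
  | _, [] => 0
  | ω, v :: t => ω t + dd (fun t' => ω (v :: t')) t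

/-- prism operator from level `k` to level `k + 1` -/
def pr {V : Type} (k : ℕ) : (List (V × ℕ) → ZMod 2) → List V → ZMod 2
  | _, [] => 0
  | ω, v :: t => ω ((v, k) :: (v, k + 1) :: t.map (fun x => (x, k + 1))) +
      pr k (fun t' => ω ((v, k) :: t')) t

end Pool.Agent.W716.FV
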