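import Pool.Agent.W716.FV.Defs

/-!
# Statements of the analytic tasks
-/

set_option autoImplicit false

open MeasureTheory

namespace Pool.Agent.W716.FV

/-- [FV-KM] moments of `κ` -/
def KappaMoments : Prop :=
  IsProbabilityMeasure nu ∧ Integrable (fun κ : ℝ => κ ^ 4) nu ∧
  ∫ κ, κ ∂nu = 0 ∧ ∫ κ, κ ^ 2 ∂nu = 1 / 3 ∧ ∫ κ, |κ| ∂nu = 4 / (3 * Real.pi) ∧
  ∫ κ, κ ^ 2 / (1 + κ ^ 2) ∂nu = 1 / 6

/-- [FV-KS] Stein identity for `κ` -/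
def KappaStein : Prop :=
  ∀ (F : ℝ → ℝ) (L : ℝ), (∀ x y, |F x - F y| ≤ L * |x - y|) →
    ∫ κ, κ * F κ ∂nu = 1 / 4 * ∫ κ, (1 + κ ^ 2) * deriv F κ ∂nu

/-- [FV-KN] numerical bound -/
def KappaNum : Prop :=
  ∀ a : ℝ, 13 / 5 ≤ a → 432 / 100 < a ^ 2 * ∫ κ, (1 + κ ^ 2) * Real.exp (-(κ ^ 2 * a ^ 2 / 4)) ∂nu

/-- [FV-GM] moments of the Gaussian measure -/
def GaussMoments : Prop :=
  ∀ n : ℕ, IsProbabilityMeasure (gam n) ∧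
    (∀ k : ℕ, Integrable (fun x : E n => ‖x‖ ^ k) (gam n)) ∧
    (∀ v : E n, ∫ x, (inner ℝ x v : ℝ) ∂(gam n) = 0) ∧
    (∀ v w : E n, ∫ x, (inner ℝ x v : ℝ) * inner ℝ x w ∂(gam n) = inner ℝ v w) ∧
    ∫ x, ‖x‖ ^ 2 ∂(gam n) = n

/-- [FV-GI] Gaussian integration by parts for Lipschitz functions -/
def GaussIBP : Prop :=
  ∀ (n : ℕ) (F : E n → ℝ) (L : ℝ), (∀ x y, |F x - F y| ≤ L * ‖x - y‖) → ∀ v : E n,
    ∫ x, F x * inner ℝ x v ∂(gam n) = ∫ x, fderiv ℝ F x v ∂(gam n)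

/-- [FV-PM] moments of `(g, κ)` -/
def PMoments : Prop :=
  ∀ n : ℕ, IsProbabilityMeasure (P n) ∧
    (∀ j k : ℕ, j ≤ 4 → Integrable (fun w : E n × ℝ => |w.2| ^ j * ‖w.1‖ ^ k) (P n)) ∧
    (∀ v : E n, ∫ w, (inner ℝ w.1 v : ℝ) ∂(P n) = 0) ∧
    ∫ w, w.2 ∂(P n) = 0 ∧ ∫ w, w.2 ^ 2 ∂(P n) = 1 / 3 ∧
    (∀ f : E n → ℝ, ∫ w, w.2 * f w.1 ∂(P n) = 0) ∧
    (∀ v v' : E n, ∫ w, (inner ℝ w.1 v : ℝ) * inner ℝ w.1 v' ∂(P n) = inner ℝ v v') ∧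
    (∀ v v' : E n, ∫ w, w.2 ^ 2 * ((inner ℝ w.1 v : ℝ) * inner ℝ w.1 v') ∂(P n) =
      inner ℝ v v' / 3) ∧
    (∀ η : E n, ∫ w, ‖xi η w‖ ^ 2 ∂(P n) = n + ‖η‖ ^ 2 / 3)

/-- [FV-GF] elementary facts on good functions -/
def GoodFacts : Prop :=
  ∀ (n : ℕ) (R : ℝ) (u : E n → ℝ), 0 ≤ R → Good R u →
    (∀ x, ‖gr u x‖ ≤ R) ∧ (∀ x, |u x| ≤ R * ‖x‖) ∧ Measurable (gr u) ∧
    (∀ x, DifferentiableAt ℝ u x → inner ℝ (gr u x) x = u x) ∧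
    (∀ c : E n, ∀ᵐ x ∂(gam n), DifferentiableAt ℝ u (x + c)) ∧
    (∀ η : E n, ∀ᵐ w ∂(P n), DifferentiableAt ℝ u (xi η w))

/-- [FV-TD] derivative of `T` and continuity of `S` as functions of `η` -/
def TDeriv : Prop :=
  ∀ (n : ℕ) (R : ℝ) (u : E n → ℝ), 0 ≤ R → Good R u →
    (∀ η : E n, HasFDerivAt (TT u) (AA u η - ContinuousLinearMap.id ℝ (E n)) η) ∧
    Continuous (SS R u)

/-- [FV-SY] symmetry of `A` -/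
def ASymm : Prop :=
  ∀ (n : ℕ) (R : ℝ) (u : E n → ℝ), 0 ≤ R → Good R u → ∀ η v w : E n,
    (inner ℝ (AA u η v) w : ℝ) = inner ℝ (AA u η w) v

/-- [FV-XI] the identities for `X` -/
def XIdent : Prop :=
  ∀ (n : ℕ) (R : ℝ) (u : E n → ℝ), 0 ≤ R → Good R u → ∀ η : E n,
    (∀ w, ‖gr u (xi η w) - η‖ ^ 2 ≤ XX R u η w) ∧
    Integrable (fun w : E n × ℝ => (1 + w.2 ^ 2) * XX R u η w) (P n) ∧
    ∫ w, gr u (xi η w) ∂(P n) = TT u η + η ∧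
    ∫ w, XX R u η w ∂(P n) = EX R u η ∧
    ∫ w, (1 + w.2 ^ 2) * XX R u η w ∂(P n) = 8 * SS R u η

/-- [FV-AI] trace and Hilbert-Schmidt norm of `A` -/
def AIdent : Prop :=
  ∀ (n : ℕ) (R : ℝ) (u : E n → ℝ), 0 ≤ R → Good R u → ∀ η : E n,
    LinearMap.trace ℝ (E n) (AA u η : E n →ₗ[ℝ] E n) = 3 * SS R u η - EX R u η / 2 ∧
    ∑ i, ‖AA u η (EuclideanSpace.single i 1)‖ ^ 2 ≤ EX R u η / 3

/-- [FV-DL] lower bound for a determinant -/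
def DetLower : Prop :=
  ∀ (n : ℕ) (A : E n →L[ℝ] E n), (∀ v w : E n, (inner ℝ (A v) w : ℝ) = inner ℝ (A w) v) →
    ∑ i, ‖A (EuclideanSpace.single i 1)‖ ^ 2 ≤ 9 / 25 →
    Real.exp (-(LinearMap.trace ℝ (E n) (A : E n →ₗ[ℝ] E n)) -
      ∑ i, ‖A (EuclideanSpace.single i 1)‖ ^ 2) ≤ |(A - ContinuousLinearMap.id ℝ (E n)).det|

/-- [FV-OV] overlap of two shifted Gaussians -/
def Overlap : Prop :=
  ∀ (n : ℕ) (V : E n → E n) (K : ℝ), Measurable V → (∀ x, ‖V x‖ ≤ K) → ∀ c₁ c₂ η₁ η₂ : E n,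
    ‖η₂ - η₁‖ * Real.exp (-‖c₂ - c₁‖ ^ 2 / 8) ≤
      √(∫ x, ‖V (x + c₁) - η₁‖ ^ 2 ∂(gam n)) + √(∫ x, ‖V (x + c₂) - η₂‖ ^ 2 ∂(gam n)) ∧
    ‖(∫ x, V (x + c₂) ∂(gam n)) - ∫ x, V (x + c₁) ∂(gam n)‖ ≤
      ‖c₂ - c₁‖ / 2 * (√(∫ x, ‖V (x + c₁) - η₁‖ ^ 2 ∂(gam n)) +
        √(∫ x, ‖V (x + c₂) - η₂‖ ^ 2 ∂(gam n)) + ‖η₂ - η₁‖)

/-- [FV-IN] injectivity of `T` on the set `S ≤ 27/200` -/
def Inject : Prop :=
  ∀ (n : ℕ) (R : ℝ) (u : E n → ℝ), 0 ≤ R → Good R u → ∀ η₁ η₂ : E n,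
    SS R u η₁ ≤ 27 / 200 → SS R u η₂ ≤ 27 / 200 → TT u η₁ = TT u η₂ → η₁ = η₂

/-- [FV-PP] the estimate for a fixed point of the cone -/
def PerP : Prop :=
  ∀ (n : ℕ) (R : ℝ) (u : E n → ℝ), 0 ≤ R → Good R u → ∀ ε : ℝ, 0 < ε →
    ∫⁻ η : E n, ENNReal.ofReal (wt ε η (SS R u η, TT u η) * Real.exp (SS R u η - 1 / 2)) ≤
      ENNReal.ofReal (Real.exp (-(R ^ 2) / 2 - 1 / 2)) *
        volume (Metric.closedBall (0 : E n) ε)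

/-- [FV-GL] lower bound for the integral of the weights over the region above the paraboloid -/
def GaussLower : Prop :=
  ∀ (n : ℕ) (ε : ℝ), 0 < ε → ε ≤ 1 / 2 →
    ENNReal.ofReal (√(2 * Real.pi) ^ n * (3 / 20) *
        (Real.exp (-(10 / 9) * ε ^ 2) - Real.exp (-(9 / 10)))) *
      volume (Metric.closedBall (0 : E n) ε) ≤
    ∫⁻ η : E n, ∫⁻ z in {z : ℝ × E n | ‖z.2‖ ^ 2 / 6 < z.1}, ENNReal.ofReal (wt ε η z)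

/-- [FV-RC] polar coordinates for the Gaussian density in dimension `n + 1` -/
def RadialConst : Prop :=
  ∀ n : ℕ, (volume : Measure (E (n + 1))).toSphere Set.univ *
      ∫⁻ R in Set.Ioi (0 : ℝ), ENNReal.ofReal (R ^ n * Real.exp (-(R ^ 2) / 2)) =
    ENNReal.ofReal (√(2 * Real.pi) ^ (n + 1))

/-- [FV-NF] numerical constant -/
def NumFinal : Prop :=
  1 / 10 ≤ √3 * Real.exp (1 / 2) * (3 / 20) *
    (Real.exp (-(10 / 9) * (1 / 20) ^ 2) - Real.exp (-(9 / 10))) / √(2 * Real.pi)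

/-- [FV-AR] area inequality for countably many maps -/
def AreaIneq : Prop :=
  ∀ (V : Type) [NormedAddCommGroup V] [NormedSpace ℝ V] [FiniteDimensional ℝ V]
    [MeasurableSpace V] [BorelSpace V] (μ : Measure V) [μ.IsAddHaarMeasure]
    (ι : Type) [Countable ι] (s : ι → Set V) (f : ι → V → V) (Ω : Set V) (w : V → ENNReal),
    (∀ i, MeasurableSet (s i)) → (∀ i, AEMeasurable (f i) (μ.restrict (s i))) →
    (∀ i, ∀ t ⊆ s i, μ t = 0 → μ (f i '' t) = 0) →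
    (∀ i, ∀ᵐ x ∂μ, x ∈ s i → DifferentiableAt ℝ (f i) x) →
    MeasurableSet Ω → Measurable w → Ω ⊆ ⋃ i, f i '' s i →
    ∫⁻ y in Ω, w y ∂μ ≤
      ∑' i, ∫⁻ x in s i, ENNReal.ofReal |(fderiv ℝ (f i) x).det| * w (f i x) ∂μ

/-- [FV-HD] Hadamard inequality and the inequality of the means on `ℝ × ℝ^n` -/
def DetHad : Prop :=
  ∀ (n : ℕ) (N : (ℝ × E n) →L[ℝ] (ℝ × E n)) (C : ℝ),
    nsq (N (1, 0)) + ∑ i, nsq (N (0, EuclideanSpace.single i 1)) ≤ C →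
    |N.det| ≤ (C / (n + 1)) ^ (((n : ℝ) + 1) / 2)

/-- [FV-JD] the bound for the Jacobian (linear algebra part).  `a w` is the value and `ℓ w` the
derivative of the function with parameter `g + κη`. -/
def JDet : Prop :=
  ∀ (n : ℕ) (G : Matrix (Fin n) (Fin n) ℝ), G.PosDef → ∀ (R : ℝ), 0 < R → ∀ (η : E n)
    (a : E n × ℝ → ℝ) (ℓ : E n × ℝ → E n →L[ℝ] ℝ), Measurable a → Measurable ℓ →
    (∀ᵐ w ∂(P n), a w ^ 2 ≤ ‖xi η w‖ ^ 2 ∧ ∀ v : E n,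
      (ℓ w v) ^ 2 ≤ (‖xi η w‖ ^ 2 - a w ^ 2) * ∑ i, ∑ j, v i * G i j * v j) →
    ∀ L : (ℝ × E n) →L[ℝ] (ℝ × E n),
    (∀ (r : ℝ) (v : E n), L (r, v) =
      (r * R / 3 - ∫ w, w.2 * (r * a w + R * ℓ w v) ∂(P n),
        ∫ w, (r * a w + R * ℓ w v) • w.1 ∂(P n))) →
    |L.det| ≤ (√3)⁻¹ * Real.exp ((R ^ 2 + ‖η‖ ^ 2) / 6 - R * ∫ w, w.2 * a w ∂(P n) - 1 / 2) *
      R ^ n * √G.det

/-- [FV-CA] chain algebra modulo 2 -/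
def ChainAlg : Prop :=
  (∀ (α : Type) (ω ω' : List α → ZMod 2) (l : List α),
    dd (fun t => ω t + ω' t) l = dd ω l + dd ω' l) ∧
  (∀ (α : Type) (ω : List α → ZMod 2) (l : List α), dd (dd ω) l = 0) ∧
  (∀ (V : Type) (k : ℕ) (ω : List (V × ℕ) → ZMod 2) (l : List V),
    pr k (dd ω) l = ω (l.map (fun x => (x, k + 1))) + ω (l.map (fun x => (x, k))) +
      dd (pr k ω) l)

end Pool.Agent.W716.FV
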