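import Pool.Agent.W716.FV.StmA
import Pool.Agent.H241R3.FV.Stmts2

/-!
# Statements of the geometric and topological tasks
-/

set_option autoImplicit false

open MeasureTheory InnerProductGeometry

namespace Pool.Agent.W716.FV

open Pool.Agent.H241R3.FV (Sph ext RChart Fill Triang)

/-- the direction of a nonzero vector -/
noncomputable def dir {n : ℕ} (G : E n) (h : G ≠ 0) : Sph n :=
  ⟨‖G‖⁻¹ • G, by
    have h' : ‖G‖ ≠ 0 := norm_ne_zero_iff.2 h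
    rw [mem_sphere_zero_iff_norm, norm_smul, norm_inv, norm_norm, inv_mul_cancel₀ h']⟩

open Classical in
/-- the function `G ↦ |G| cos (distance in direction G)` attached to a point `q` of the filling -/
noncomputable def UU {n : ℕ} {M : Type} [MetricSpace M] (bd : Sph n → M) (q : M) (G : E n) : ℝ :=
  if h : G = 0 then 0 else ‖G‖ * Real.cos (ext bd (dir G h) q)

/-- the map `(S_η, T_η)` on the cone over `M` -/
noncomputable def Psi {n : ℕ} {M : Type} [MetricSpace M] (bd : Sph n → M) (η : E n) (R : ℝ)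
    (q : M) : ℝ × E n :=
  (SS R (fun G => R * UU bd q G) η, TT (fun G => R * UU bd q G) η)

/-- [FV-UF] the functions `UU` -/
def UFacts : Prop :=
  ∀ (n : ℕ), 0 < n → ∀ (M : Type) [MetricSpace M] (bd : Sph n → M),
    (∀ x y : Sph n, angle (x : E n) (y : E n) ≤ dist (bd x) (bd y)) →
    (∀ q, Good 1 (UU bd q)) ∧
    (∀ (G : E n) (x : Sph n), UU bd (bd x) G = inner ℝ G (x : E n)) ∧
    (∀ (q q' : M) (G : E n), |UU bd q G - UU bd q' G| ≤ ‖G‖ * dist q q') ∧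
    (∀ (q : M) (G : E n), UU bd q G ^ 2 ≤ ‖G‖ ^ 2) ∧
    (∀ (q q' : M) (G : E n), |UU bd q' G - UU bd q G| ≤
      √(‖G‖ ^ 2 - UU bd q G ^ 2) * dist q' q + ‖G‖ * dist q' q ^ 2)

/-- [FV-PF] the map `Psi` -/
def PsiFacts : Prop :=
  ∀ (n : ℕ), 0 < n → ∀ (M : Type) [MetricSpace M] (bd : Sph n → M),
    (∀ x y : Sph n, angle (x : E n) (y : E n) ≤ dist (bd x) (bd y)) →
    (∀ (η : E n) (R : ℝ) (q : M), Psi bd η R q =
      ((R ^ 2 + ‖η‖ ^ 2) / 6 - R * ∫ w, w.2 * UU bd q (xi η w) ∂(P n),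
        R • (∫ w, UU bd q (xi η w) • w.1 ∂(P n)) - η)) ∧
    (∀ (η : E n) (R : ℝ) (x : Sph n), Psi bd η R (bd x) =
      (‖R • (x : E n) - η‖ ^ 2 / 6, R • (x : E n) - η)) ∧
    (∀ (η : E n) (q : M), Psi bd η 0 q = (‖η‖ ^ 2 / 6, -η)) ∧
    (∀ (η : E n) (R : ℝ) (q : M), 0 ≤ R → (R - ‖η‖) ^ 2 / 6 ≤ (Psi bd η R q).1) ∧
    Continuous (fun z : E n × ℝ × M => Psi bd z.1 z.2.1 z.2.2) ∧
    (∀ (η : E n) (K : ℝ), ∃ L : ℝ, ∀ R ∈ Set.Icc 0 K, ∀ R' ∈ Set.Icc 0 K, ∀ q q' : M,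
      ‖Psi bd η R q - Psi bd η R' q'‖ ≤ L * (|R - R'| + dist q q'))

/-- [FV-BC] differentiability of `UU` in a chart -/
def BChart : Prop :=
  ∀ (n : ℕ), 0 < n → ∀ (M : Type) [MetricSpace M] (bd : Sph n → M),
    (∀ x y : Sph n, angle (x : E n) (y : E n) ≤ dist (bd x) (bd y)) → ∀ C : RChart n M,
    ∀ᵐ c ∂(volume : Measure (E n)), c ∈ C.U → ∃ D : E n → E n →L[ℝ] ℝ, Measurable D ∧
      ∀ᵐ G ∂(volume : Measure (E n)), HasFDerivAt (fun c' => UU bd (C.map c') G) (D G) c ∧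
        ∀ v : E n, (D G v) ^ 2 ≤
          (‖G‖ ^ 2 - UU bd (C.map c) G ^ 2) * ∑ i, ∑ j, v i * C.G c i j * v j

/-- [FV-JA] derivative of `Psi` in a cone chart and bound for its determinant -/
def Jac : Prop :=
  ∀ (n : ℕ), 0 < n → ∀ (M : Type) [MetricSpace M] (bd : Sph n → M),
    (∀ x y : Sph n, angle (x : E n) (y : E n) ≤ dist (bd x) (bd y)) → ∀ C : RChart n M,
    ∀ᵐ c ∂(volume : Measure (E n)), c ∈ C.U → ∀ (η : E n) (R : ℝ), 0 < R →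
      ∃ L : (ℝ × E n) →L[ℝ] (ℝ × E n),
        HasFDerivAt (fun z : ℝ × E n => Psi bd η z.1 (C.map z.2)) L (R, c) ∧
        |L.det| ≤ (√3)⁻¹ * Real.exp ((Psi bd η R (C.map c)).1 - 1 / 2) * R ^ n * √(C.G c).det

/-- [FV-NU] null sets -/
def NullPsi : Prop :=
  ∀ (n : ℕ), 0 < n → ∀ (M : Type) [MetricSpace M] (bd : Sph n → M),
    (∀ x y : Sph n, angle (x : E n) (y : E n) ≤ dist (bd x) (bd y)) → ∀ (C : RChart n M)
    (η : E n) (t : Set (ℝ × E n)), t ⊆ Set.Ioi 0 ×ˢ C.U → volume t = 0 →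
    volume ((fun z : ℝ × E n => Psi bd η z.1 (C.map z.2)) '' t) = 0

/-! ### covering -/

open Classical in
/-- `1` if `y` is in the convex hull of the points `p v`, `v` in the list -/
noncomputable def hl {α W : Type} [AddCommGroup W] [Module ℝ W] (p : α → W) (y : W)
    (l : List α) : ZMod 2 :=
  if y ∈ convexHull ℝ (p '' {v | v ∈ l}) then 1 else 0

open Classical in
/-- `1` if `y` is in the convex hull of `z` and the points `p v`, `v` in the list -/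
noncomputable def hz {α W : Type} [AddCommGroup W] [Module ℝ W] (z : W) (p : α → W) (y : W)
    (l : List α) : ZMod 2 :=
  if y ∈ convexHull ℝ (insert z (p '' {v | v ∈ l})) then 1 else 0

/-- [FV-CC] the prism operator only sees lists of vertices of the prism -/
def PrCongr : Prop :=
  ∀ (V : Type) (k : ℕ) (ω ω' : List (V × ℕ) → ZMod 2) (l : List V), l.Nodup →
    (∀ t : List (V × ℕ), t.Nodup → t.length = l.length + 1 →
      (∀ x ∈ t, x.1 ∈ l ∧ (x.2 = k ∨ x.2 = k + 1)) → ω t = ω' t) →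
    pr k ω l = pr k ω' l

/-- [FV-CT] the chains of a triangulation -/
def ChainTri : Prop :=
  ∀ (d : ℕ) (M : Type) [MetricSpace M] (bd : Sph (d + 1) → M) (ε : ℝ) (Tr : Triang bd ε),
    ∃ ord : Finset Tr.V → List Tr.V, (∀ F, (ord F).Nodup ∧ ∀ v, v ∈ ord F ↔ v ∈ F) ∧
      (∀ ω : List Tr.V → ZMod 2, ∑ σ ∈ Tr.T, dd ω (ord σ) = ∑ F ∈ Tr.B, ω (ord F)) ∧
      (∀ ω : List Tr.V → ZMod 2, ∑ F ∈ Tr.B, dd ω (ord F) = 0)

/-- [FV-EL] parity for one simplex -/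
def EvenList : Prop :=
  ∀ (W : Type) [NormedAddCommGroup W] [NormedSpace ℝ W] [FiniteDimensional ℝ W] (α : Type)
    (p : α → W) (z y : W) (l : List α), l.Nodup → l.length = Module.finrank ℝ W + 1 →
    (∀ s : Finset (Option α), s.card ≤ Module.finrank ℝ W →
      y ∉ convexHull ℝ ((fun o : Option α => o.elim z p) '' (s : Set (Option α)))) →
    hl p y l = dd (hz z p y) l

/-- [FV-BP] parity of the bottom -/
def BottomPar : Prop :=
  ∀ (d : ℕ), 1 ≤ d → ∀ (M : Type) [MetricSpace M] (bd : Sph (d + 1) → M),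
    (∀ x y : Sph (d + 1), angle (x : E (d + 1)) (y : E (d + 1)) ≤ dist (bd x) (bd y)) →
    ∀ (ε : ℝ), ε ≤ 1 → ∀ (Tr : Triang bd ε) (ord : Finset Tr.V → List Tr.V),
    (∀ F, (ord F).Nodup ∧ ∀ v, v ∈ ord F ↔ v ∈ F) →
    (∀ ω : List Tr.V → ZMod 2, ∑ F ∈ Tr.B, dd ω (ord F) = 0) →
    ∀ (r : ℕ → ℝ) (N : ℕ), r 0 = 0 → 0 < r N → ∀ η : E (d + 1),
    ∀ᵐ y ∂(volume : Measure (E (d + 1))), ‖y + η‖ < r N / 2 →
      ∑ F ∈ Tr.B, ∑ k ∈ Finset.range N,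
        pr k (hl (fun x : Tr.V × ℕ => r x.2 • (Tr.b x.1 : E (d + 1)) - η) y) (ord F) = 1

/-- [FV-CV] the covering theorem -/
def Cover : Prop :=
  ∀ (d : ℕ), 1 ≤ d → ∀ (M : Type) [MetricSpace M] [CompactSpace M] (bd : Sph (d + 1) → M),
    (∀ x y : Sph (d + 1), angle (x : E (d + 1)) (y : E (d + 1)) ≤ dist (bd x) (bd y)) →
    (∀ ε : ℝ, 0 < ε → Nonempty (Triang bd ε)) →
    ∀ (η : E (d + 1)) (Ψ : ℝ → M → ℝ × E (d + 1)), Continuous (fun z : ℝ × M => Ψ z.1 z.2) →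
    (∀ (R : ℝ) (x : Sph (d + 1)), 0 ≤ R → Ψ R (bd x) =
      (‖R • (x : E (d + 1)) - η‖ ^ 2 / 6, R • (x : E (d + 1)) - η)) →
    (∀ q, Ψ 0 q = (‖η‖ ^ 2 / 6, -η)) →
    (∀ (R : ℝ) (q : M), 0 ≤ R → (R - ‖η‖) ^ 2 / 6 ≤ (Ψ R q).1) →
    ∀ z : ℝ × E (d + 1), ‖z.2‖ ^ 2 / 6 < z.1 → ∃ (R : ℝ) (q : M), 0 ≤ R ∧ Ψ R q = z

/-- the main statement -/
def Main : Prop :=
  ∀ (d : ℕ), 1 ≤ d → ∀ (M : Type) [MetricSpace M] [CompactSpace M] (S : Fill d M),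
    S.NonShort → S.Triangulated →
    ENNReal.ofReal (1 / 10) *
      (volume : Measure (EuclideanSpace ℝ (Fin (d + 2)))).toSphere Set.univ ≤ S.vol

end Pool.Agent.W716.FV
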