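import Pool.Agent.W716.FV.Asm
import Pool.Agent.W293.FV.KM
import Pool.Agent.W293.FV.KS
import Pool.Agent.W366.FV.KN
import Pool.Agent.W933.FV.GM
import Pool.Agent.W762.FV.GI
import Pool.Agent.W688.FV.GF
import Pool.Agent.W52.FV.PM
import Pool.Agent.W688.FV.TD
import Pool.Agent.W21.FV.Sy
import Pool.Agent.W753.FV.XI
import Pool.Agent.W125.FV.AI
import Pool.Agent.W816.FV.DL
import Pool.Agent.W293.FV.OV
import Pool.Agent.W925.FV.IN
import Pool.Agent.W253.FV.PP
import Pool.Agent.W718.FV.GL
import Pool.Agent.W930.FV.RC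
import Pool.Agent.W597.FV.NF
import Pool.Agent.W521.FV.AR
import Pool.Agent.W816.FV.HD
import Pool.Agent.W588.FV.JD
import Pool.Agent.W52.FV.CA
import Pool.Agent.W177.FV.CC
import Pool.Agent.W925.FV.CT
import Pool.Agent.W925.FV.EL
import Pool.Agent.W368.FV.BP
import Pool.Agent.W440.FV.Cv
import Pool.Agent.W18.FV.UF
import Pool.Agent.W358.FV.PF
import Pool.Agent.W753.FV.BC
import Pool.Agent.W376.FV.JA
import Pool.Agent.H241R3.FV.TGen

/-!
# The main theorem, from all tasks
-/

set_option autoImplicit false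

namespace Pool.Agent.W716.FV

theorem kM : KappaMoments := Pool.Agent.W293.FV.main
theorem kS : KappaStein := Pool.Agent.W293.FV.KS.main
theorem kN : KappaNum := Pool.Agent.W366.FVKN.main
theorem gM : GaussMoments := Pool.Agent.W933.FVGM.main
theorem gI : GaussIBP := Pool.Agent.W762.FV.main
theorem gF : GoodFacts := Pool.Agent.W688.FV.GF.main
theorem pM : PMoments := Pool.Agent.W52.FV.PM.main kM gM
theorem tD : TDeriv := Pool.Agent.W688.FV.TD.main pM gF
theorem sY : ASymm := Pool.Agent.W21.FV.main pM gM gI gF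
theorem xI : XIdent := Pool.Agent.W753.FV.XI.main kS kM gM gI pM gF
theorem aI : AIdent := Pool.Agent.W125.FV.main pM gF xI
theorem dL : DetLower := Pool.Agent.W816.FV.DL.main
theorem oV : Overlap := Pool.Agent.W293.FV.OV.main gM
theorem iN : Inject := Pool.Agent.W925.FV.IN.main kM pM gF xI oV kN
theorem pP : PerP := Pool.Agent.W253.FV.PP.main gF tD sY xI aI dL iN
theorem gL : GaussLower := Pool.Agent.W718.FV.GL.main
theorem rC : RadialConst := Pool.Agent.W930.FV.main
theorem nF : NumFinal := Pool.Agent.W597.FV.main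
theorem aR : AreaIneq := Pool.Agent.W521.FV.AR.main
theorem hD : DetHad := Pool.Agent.W816.FV.HD.main
theorem jD : JDet := Pool.Agent.W588.FV.JD.main pM hD
theorem cA : ChainAlg := Pool.Agent.W52.FV.CA.main
theorem cC : PrCongr := Pool.Agent.W177.FV.CC.main
theorem cT : ChainTri := Pool.Agent.W925.FV.CT.main cA
theorem eL : EvenList := Pool.Agent.W925.FV.EL.main
theorem bP : BottomPar :=
  Pool.Agent.W368.FV.BP.main cA cC eL Pool.Agent.H241R3.FV.TGen.taskGen
theorem cV : Cover :=
  Pool.Agent.W440.FV.main cA cC cT eL bP Pool.Agent.H241R3.FV.TGen.taskGen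
theorem uF : UFacts := Pool.Agent.W18.FV.UF.main
theorem pF : PsiFacts := Pool.Agent.W358.FV.PF.main pM uF
theorem bC : BChart := Pool.Agent.W753.FV.BC.main uF
theorem jA : Jac := Pool.Agent.W376.FV.JA.main pM uF pF bC jD

/-- The main theorem; the last task is a hypothesis here. -/
theorem final_of (hNU : NullPsi) : Main :=
  Asm.main pP gL rC nF aR uF pF jA hNU cV

end Pool.Agent.W716.FV
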